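import Mathlib
import Pool.Agent.Q248.RL.Stm3

set_option autoImplicit false

/-!
Vanishing of the low Fourier coefficients of the theta components from the growth on slices.
-/

namespace Pool.Agent.Q296.RL

open Complex Set Finset Topology MeasureTheory
open Pool.Agent.Y813.RL Pool.Agent.Q248.RL
open Pool.Agent.Y683.RL (HP fco)

noncomputable section

/-- the function on a slice -/
def fy (c : ℂ → (Fin 20 → ℂ) → ℂ) (X : Fin 20 → ℤ) (N : ℕ) (y : Fin 20 → ℝ) (t : ℂ) : ℂ :=
  c (N * t) (fun i => t * (X i : ℂ) + (y i : ℂ))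

variable {A : Matrix (Fin 20) (Fin 20) ℤ} {c : ℂ → (Fin 20 → ℂ) → ℂ}

theorem per_tau (hc : JacobiZero A c) (z : Fin 20 → ℂ) {τ : ℂ} (hτ : 0 < τ.im) (N : ℕ) :
    c (τ + N) z = c τ z := by
  induction N with
  | zero => simp
  | succ n ih =>
    have h1 : τ + ((n + 1 : ℕ) : ℂ) = (τ + n) + 1 := by push_cast; ring
    rw [h1, hc.perτ (τ + n) z (by simpa using hτ), ih]

theorem im_mul {N : ℕ} (t : ℂ) : ((N : ℂ) * t).im = N * t.im := by
  rw [Complex.mul_im]
  simp

theorem im_pos {N : ℕ} (hN : 0 < N) {t : ℂ} (ht : 0 < t.im) : 0 < ((N : ℂ) * t).im := by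
  rw [im_mul]
  have : (0 : ℝ) < N := by exact_mod_cast hN
  positivity

theorem fy_hp (hc : JacobiZero A c) (X : Fin 20 → ℤ) {N : ℕ} (hN : 0 < N) (y : Fin 20 → ℝ) :
    HP 0 (fy c X N y) where
  holo := by
    refine hc.holo.comp (f := fun t : ℂ => ((N : ℂ) * t, fun i => t * (X i : ℂ) + (y i : ℂ))) ?_
      fun t ht => im_pos hN ht
    fun_prop
  per := by
    intro t ht
    unfold fy
    have h1 : (N : ℂ) * (t + 1) = N * t + N := by ring
    have h2 : (fun i => (t + 1) * (X i : ℂ) + (y i : ℂ)) =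
        fun i => (fun i => t * (X i : ℂ) + (y i : ℂ)) i + (X i : ℂ) := by
      funext i
      ring
    rw [h1, per_tau hc _ (im_pos hN ht), h2, hc.perz _ _ _ (im_pos hN ht)]

theorem fy_eq (X : Fin 20 → ℤ) {N : ℕ} (hN : 0 < N) (y : Fin 20 → ℝ) (t : ℂ) :
    fy c X N y t = c (N * t) (sl (xr X N) y (N * t)).2 := by
  unfold fy sl xr
  congr 1
  funext i
  have : (N : ℂ) ≠ 0 := by exact_mod_cast hN.ne'
  push_cast
  field_simp

/-- the coefficients of low order vanish -/
theorem fy_zero (hc : JacobiZero A c) (G : Matrix (Fin 20) (Fin 20) ℤ) (X : Fin 20 → ℤ) {N : ℕ}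
    (hN : 0 < N) (y : Fin 20 → ℝ) {m : ℕ} {θ : ℝ} (hg : Grw G c m θ (xr X N) y) {j : ℤ}
    (hj : (j : ℝ) + m * (θ + bf G (xr X N) (xr X N) / 2) * N < 0) : fco 0 (fy c X N y) j = 0 := by
  obtain ⟨K, T₁, h⟩ := hg
  have hf := fy_hp hc X hN y
  have hN0 : (0 : ℝ) < N := by exact_mod_cast hN
  have hpi := Real.pi_pos
  set g := θ + bf G (xr X N) (xr X N) / 2 with hgdef
  set b : ℝ := -(2 * Real.pi * (j + m * g * N)) with hb
  have hb0 : 0 < b := by
    rw [hb]
    nlinarith
  rw [hf.fco_eq j (w := Complex.I) (by simp)]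
  refine HP_line_zero (f := fun t => fy c X N y t * ee (-(j * t))) (hf.mul_ee j) ?_ (by simp)
  intro ε hε
  have ht : Filter.Tendsto (fun T : ℝ => |K| * (1 + 4 * N / b) ^ 2 * Real.exp (-(b / 2) * T))
      Filter.atTop (𝓝 (|K| * (1 + 4 * N / b) ^ 2 * 0)) := by
    refine Filter.Tendsto.const_mul _ ?_
    refine Real.tendsto_exp_atBot.comp ?_
    exact Filter.Tendsto.const_mul_atTop_of_neg (by linarith) Filter.tendsto_id
  rw [mul_zero] at ht
  obtain ⟨T, hT⟩ := Filter.eventually_atTop.1 (ht.eventually (gt_mem_nhds hε))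
  refine ⟨max T (max (T₁ / N) 1), fun t htm => ?_⟩
  have h1 : T ≤ t.im := (le_max_left _ _).trans htm
  have h2 : T₁ / N ≤ t.im := ((le_max_left _ _).trans (le_max_right _ _)).trans htm
  have h3 : 1 ≤ t.im := ((le_max_right _ _).trans (le_max_right _ _)).trans htm
  have h4 : T₁ ≤ ((N : ℂ) * t).im := by
    rw [im_mul]
    rw [div_le_iff₀ hN0] at h2
    linarith
  have h5 := h _ h4
  rw [← fy_eq (c := c) X hN y t, im_mul] at h5
  rw [norm_mul, norm_ee]
  have e1 : (-((j : ℂ) * t)).im = -(j * t.im) := by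
    rw [Complex.neg_im, Complex.mul_im]; simp
  rw [e1]
  set v := t.im with hv
  have h6 : 1 + N * v ≤ (1 + 4 * N / b) * Real.exp (b / 4 * v) := by
    have e2 : b / 4 * v + 1 ≤ Real.exp (b / 4 * v) := Real.add_one_le_exp _
    have e3 : (1 : ℝ) ≤ Real.exp (b / 4 * v) := Real.one_le_exp (by positivity)
    have e4 : N * v ≤ 4 * N / b * Real.exp (b / 4 * v) := by
      calc N * v = 4 * N / b * (b / 4 * v) := by field_simp
        _ ≤ _ := mul_le_mul_of_nonneg_left (by linarith) (by positivity)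
    linarith
  have h7 : (1 + N * v) ^ 2 ≤ (1 + 4 * N / b) ^ 2 * Real.exp (b / 2 * v) := by
    have e5 : 0 ≤ 1 + N * v := by positivity
    calc (1 + N * v) ^ 2 ≤ ((1 + 4 * N / b) * Real.exp (b / 4 * v)) ^ 2 := by gcongr
      _ = _ := by
        rw [mul_pow, ← Real.exp_nat_mul]
        congr 2
        push_cast
        ring
  calc ‖fy c X N y t‖ * Real.exp (-(2 * Real.pi * -(j * v))) ≤
      (|K| * (1 + N * v) ^ 2 * Real.exp (2 * Real.pi * m * g * (N * v))) *
        Real.exp (-(2 * Real.pi * -(j * v))) := by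
        gcongr
        refine h5.trans ?_
        gcongr
        exact le_abs_self _
    _ ≤ (|K| * ((1 + 4 * N / b) ^ 2 * Real.exp (b / 2 * v)) *
        Real.exp (2 * Real.pi * m * g * (N * v))) * Real.exp (-(2 * Real.pi * -(j * v))) := by
        gcongr
    _ = |K| * (1 + 4 * N / b) ^ 2 * Real.exp (-(b / 2) * v) := by
        have e6 : Real.exp (b / 2 * v) * Real.exp (2 * Real.pi * m * g * (N * v)) *
            Real.exp (-(2 * Real.pi * -(j * v))) = Real.exp (-(b / 2) * v) := by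
          rw [← Real.exp_add, ← Real.exp_add]
          congr 1
          rw [hb]
          ring
        rw [← e6]
        ring
    _ ≤ ε := (hT _ h1).le

/-- the average of a periodic function -/
theorem avg {φ : ℂ → ℂ} (hφ : HP 0 φ) {N : ℕ} (hN : 0 < N) {w : ℂ} (hw : 0 < w.im) :
    ∫ t in (0 : ℝ)..1, φ (N * ((t : ℂ) + w)) = ∫ s in (0 : ℝ)..1, φ ((s : ℂ) + N * w) := by
  have hN0 : (N : ℝ) ≠ 0 := by exact_mod_cast hN.ne'
  have him := im_pos hN hw
  set g : ℝ → ℂ := fun s => φ ((s : ℂ) + N * w) with hg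
  have hper : Function.Periodic g 1 := by
    intro s
    simp only [hg]
    rw [← hφ.per ((s : ℂ) + N * w) (by simpa using him)]
    congr 1
    push_cast
    ring
  have hcont : Continuous g := hφ.cont_line him
  have e1 : ∀ t : ℝ, φ (N * ((t : ℂ) + w)) = g (N * t) := by
    intro t
    simp only [hg]
    congr 1
    push_cast
    ring
  simp only [e1]
  rw [intervalIntegral.integral_comp_mul_left g hN0, mul_zero, mul_one]
  have h2 := hper.intervalIntegral_add_zsmul_eq (N : ℤ) 0 (fun a b => hcont.intervalIntegrable a b)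
  simp only [zero_add, zsmul_eq_mul, Int.cast_natCast, mul_one] at h2
  rw [h2, Complex.real_smul]
  push_cast
  have hNc : (N : ℂ) ≠ 0 := by exact_mod_cast hN.ne'
  field_simp

theorem fv (h1 : JobTheta1) : S_FV := by
  intro G m c hG hm hc μ n θ O Q hO hx0 hgrow hn
  have hA := posSymm_smul hG hm
  obtain ⟨hol, per, shift, -, -⟩ := h1 _ c hA hc
  have hm0 : (0 : ℝ) < m := by exact_mod_cast hm
  -- the generic direction
  have hO2 : IsOpen {x : Fin 20 → ℝ | (n : ℝ) + dt μ x + m * (θ + bf G x x / 2) < 0} := by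
    refine isOpen_lt ?_ continuous_const
    have e1 : Continuous fun x : Fin 20 → ℝ => dt μ x := dt_continuous μ
    have e2 : Continuous fun x : Fin 20 → ℝ => bf G x x := bf_contR G continuous_id continuous_id
    fun_prop
  have hx2 : (-(1 / (m : ℝ))) • lam G μ ∈
      {x : Fin 20 → ℝ | (n : ℝ) + dt μ x + m * (θ + bf G x x / 2) < 0} := by
    show (n : ℝ) + dt μ ((-(1 / (m : ℝ))) • lam G μ) + m * (θ +
      bf G ((-(1 / (m : ℝ))) • lam G μ) ((-(1 / (m : ℝ))) • lam G μ) / 2) < 0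
    rw [bf_smul_left, bf_smul_right, bf_lam_lam hG, dt_smul, ← bf_lam hG, bf_lam_lam hG]
    have e1 : (n : ℝ) + -(1 / (m : ℝ)) * bd G μ μ + m * (θ + -(1 / (m : ℝ)) *
        (-(1 / (m : ℝ)) * bd G μ μ) / 2) = n - bd G μ μ / (2 * m) + m * θ := by
      field_simp
      ring
    rw [e1]
    linarith
  obtain ⟨X, N, hN, hXO, hgen⟩ := gen Q (hO.inter hO2) ⟨_, hx0, hx2⟩
  have hN0 : (0 : ℝ) < N := by exact_mod_cast hN
  have hgr : ∀ y, Grw G c m θ (xr X N) y := hgrow X N hN hXO.1 hgen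
  have hlt : (n : ℝ) + dt μ (xr X N) + m * (θ + bf G (xr X N) (xr X N) / 2) < 0 := hXO.2
  -- the exponent
  set j : ℤ := n * N + dt μ X with hj
  have hdt : dt μ (xr X N) * N = ((dt μ X : ℤ) : ℝ) := by
    unfold dt xr
    rw [Finset.sum_mul]
    push_cast
    refine Finset.sum_congr rfl fun i _ => ?_
    field_simp
  have hj0 : (j : ℝ) + m * (θ + bf G (xr X N) (xr X N) / 2) * N < 0 := by
    have e1 : (j : ℝ) = n * N + dt μ (xr X N) * N := by
      rw [hdt, hj]; push_cast; rfl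
    rw [e1]
    nlinarith
  -- the Fourier coefficient
  have hφ0 : HP 0 (fc c μ) := ⟨hol μ, fun t ht => per μ t ht⟩
  set φ : ℂ → ℂ := fun t => fc c μ t * ee (-(n * t)) with hφdef
  have hφ : HP 0 φ := hφ0.mul_ee n
  set w : ℂ := Complex.I with hw
  have hwim : 0 < w.im := by simp [hw]
  rw [hφ0.fco_eq n (w := N * w) (im_pos hN hwim)]
  have e1 : ∫ s in (0 : ℝ)..1, fc c μ ((s : ℂ) + N * w) * ee (-(n * ((s : ℂ) + N * w))) =
      ∫ s in (0 : ℝ)..1, φ ((s : ℂ) + N * w) := rfl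
  rw [e1, ← avg hφ hN hwim]
  -- the integrand
  set Φ : ℝ → (Fin 20 → ℝ) → ℂ := fun t y =>
    ee (-(dt μ (fun i => (y i : ℂ)))) * (fy c X N y ((t : ℂ) + w) * ee (-(j * ((t : ℂ) + w))))
    with hΦ
  have e2 : ∀ t : ℝ, φ (N * ((t : ℂ) + w)) = ∫ y in Set.Icc (0 : Fin 20 → ℝ) 1, Φ t y := by
    intro t
    have ht : 0 < ((t : ℂ) + w).im := by simp [hw]
    simp only [hφdef]
    rw [shift μ _ (fun i => ((t : ℂ) + w) * (X i : ℂ)) (im_pos hN ht), ← integral_mul_const]
    refine setIntegral_congr_fun measurableSet_Icc fun y _ => ?_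
    simp only [hΦ, fy]
    have e3 : dt μ (fun i => ((t : ℂ) + w) * (X i : ℂ) + (y i : ℂ)) =
        ((t : ℂ) + w) * ((dt μ X : ℤ) : ℂ) + dt μ (fun i => (y i : ℂ)) := by
      unfold dt
      push_cast
      rw [Finset.mul_sum, ← Finset.sum_add_distrib]
      refine Finset.sum_congr rfl fun i _ => ?_
      ring
    rw [e3, mul_assoc, ← Pool.Agent.Y813.RL.ee_add]
    symm
    rw [mul_left_comm, ← Pool.Agent.Y813.RL.ee_add]
    congr 2
    rw [hj]
    push_cast
    ring
  simp only [e2]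
  -- Fubini
  have hcontΦ : Continuous (Function.uncurry Φ) := by
    have h2 : Continuous (fun q : ℝ × (Fin 20 → ℝ) => fy c X N q.2 ((q.1 : ℂ) + w)) := by
      unfold fy
      rw [← continuousOn_univ]
      refine hc.holo.continuousOn.comp (f := fun q : ℝ × (Fin 20 → ℝ) =>
        ((N : ℂ) * ((q.1 : ℂ) + w), fun i => ((q.1 : ℂ) + w) * (X i : ℂ) + (q.2 i : ℂ))) ?_
        fun q _ => ?_
      · exact Continuous.continuousOn (by fun_prop)
      · refine im_pos hN ?_
        simp [hw]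
    have h3 : Continuous (fun q : ℝ × (Fin 20 → ℝ) => ee (-(dt μ (fun i => (q.2 i : ℂ))))) := by
      unfold ee dt
      fun_prop
    have h4 : Continuous (fun q : ℝ × (Fin 20 → ℝ) => ee (-(j * ((q.1 : ℂ) + w)))) := by
      unfold ee
      fun_prop
    exact h3.mul (h2.mul h4)
  rw [intervalIntegral.integral_of_le zero_le_one]
  have hint : Integrable (Function.uncurry Φ)
      ((volume.restrict (Ioc (0 : ℝ) 1)).prod (volume.restrict (Set.Icc (0 : Fin 20 → ℝ) 1))) := by
    rw [Measure.prod_restrict, ← Measure.volume_eq_prod]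
    have h5 : IntegrableOn (Function.uncurry Φ) (Set.Icc (0 : ℝ) 1 ×ˢ Set.Icc (0 : Fin 20 → ℝ) 1) :=
      hcontΦ.continuousOn.integrableOn_compact (isCompact_Icc.prod isCompact_Icc)
    exact h5.mono_set (Set.prod_mono Ioc_subset_Icc_self subset_rfl)
  rw [integral_integral_swap hint]
  have h6 : ∀ y : Fin 20 → ℝ, ∫ t in Ioc (0 : ℝ) 1, Φ t y = 0 := by
    intro y
    rw [← intervalIntegral.integral_of_le zero_le_one]
    simp only [hΦ]
    rw [intervalIntegral.integral_const_mul]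
    have h7 := (fy_hp hc X hN y).fco_eq j (w := w) hwim
    rw [← h7, fy_zero hc G X hN y (hgr y) hj0, mul_zero]
  simp [h6]

end

end Pool.Agent.Q296.RL
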