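import Mathlib

set_option autoImplicit false

/-!
Congruence of symmetric matrices over a local ring.
-/

namespace Pool.Agent.Q296.RL

open Matrix

section

variable {R : Type} [CommRing R]

/-- congruence of matrices, the index types may be different -/
def Cg {ι κ : Type} [Fintype ι] [Fintype κ] [DecidableEq ι] [DecidableEq κ]
    (M : Matrix ι ι R) (N : Matrix κ κ R) : Prop :=
  ∃ (P : Matrix ι κ R) (Q : Matrix κ ι R), P * Q = 1 ∧ Q * P = 1 ∧ Pᵀ * M * P = N

variable {ι κ lam : Type} [Fintype ι] [Fintype κ] [Fintype lam] [DecidableEq ι] [DecidableEq κ]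
  [DecidableEq lam]

theorem Cg.refl (M : Matrix ι ι R) : Cg M M := ⟨1, 1, by simp, by simp, by simp⟩

theorem Cg.symm {M : Matrix ι ι R} {N : Matrix κ κ R} (h : Cg M N) : Cg N M := by
  obtain ⟨P, Q, h1, h2, h3⟩ := h
  refine ⟨Q, P, h2, h1, ?_⟩
  have h4 : Qᵀ * Pᵀ = 1 := by rw [← transpose_mul, h1, transpose_one]
  rw [← h3]
  calc Qᵀ * (Pᵀ * M * P) * Q = (Qᵀ * Pᵀ) * M * (P * Q) := by simp only [Matrix.mul_assoc]
    _ = M := by rw [h4, h1, Matrix.one_mul, Matrix.mul_one]

theorem Cg.trans {M : Matrix ι ι R} {N : Matrix κ κ R} {L : Matrix lam lam R} (h : Cg M N)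
    (h' : Cg N L) : Cg M L := by
  obtain ⟨P, Q, h1, h2, h3⟩ := h
  obtain ⟨P', Q', h1', h2', h3'⟩ := h'
  refine ⟨P * P', Q' * Q, ?_, ?_, ?_⟩
  · calc P * P' * (Q' * Q) = P * (P' * Q') * Q := by simp only [Matrix.mul_assoc]
      _ = 1 := by rw [h1', Matrix.mul_one, h1]
  · calc Q' * Q * (P * P') = Q' * (Q * P) * P' := by simp only [Matrix.mul_assoc]
      _ = 1 := by rw [h2, Matrix.mul_one, h2']
  · rw [transpose_mul, ← h3', ← h3]
    simp only [Matrix.mul_assoc]

theorem Cg.isSymm {M : Matrix ι ι R} {N : Matrix κ κ R} (h : Cg M N) (hs : M.IsSymm) : N.IsSymm := by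
  obtain ⟨P, Q, h1, h2, h3⟩ := h
  unfold Matrix.IsSymm
  rw [← h3, transpose_mul, transpose_mul, transpose_transpose, hs.eq, Matrix.mul_assoc]

theorem Cg.sum {A : Matrix lam lam R} {M : Matrix ι ι R} {N : Matrix κ κ R} (h : Cg M N) :
    Cg (fromBlocks A 0 0 M) (fromBlocks A 0 0 N) := by
  obtain ⟨P, Q, h1, h2, h3⟩ := h
  refine ⟨fromBlocks 1 0 0 P, fromBlocks 1 0 0 Q, ?_, ?_, ?_⟩
  · rw [fromBlocks_multiply]
    simp [h1]
  · rw [fromBlocks_multiply]
    simp [h2]
  · rw [fromBlocks_transpose, fromBlocks_multiply, fromBlocks_multiply]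
    simp [h3]

theorem Cg.reindex (M : Matrix ι ι R) (e : κ ≃ ι) : Cg M (M.submatrix e e) := by
  refine ⟨(1 : Matrix ι ι R).submatrix id e, (1 : Matrix ι ι R).submatrix e id, ?_, ?_, ?_⟩
  · rw [submatrix_mul_equiv (1 : Matrix ι ι R) (1 : Matrix ι ι R) id e id]
    simp
  · have := submatrix_mul_equiv (1 : Matrix ι ι R) (1 : Matrix ι ι R) e (Equiv.refl ι) e
    rw [Matrix.one_mul] at this
    simpa using this
  · ext i j
    simp [Matrix.mul_apply, Matrix.one_apply, Matrix.submatrix_apply]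

theorem Cg.of_unit (M P : Matrix ι ι R) (h : IsUnit P.det) : Cg M (Pᵀ * M * P) :=
  ⟨P, P⁻¹, Matrix.mul_nonsing_inv _ h, Matrix.nonsing_inv_mul _ h, rfl⟩

theorem Cg.det {M : Matrix ι ι R} {N : Matrix κ κ R} (h : Cg M N)
    (hc : Fintype.card ι = Fintype.card κ) : ∃ u : R, IsUnit u ∧ N.det = u ^ 2 * M.det := by
  obtain ⟨P, Q, h1, h2, h3⟩ := h
  have e : ι ≃ κ := Fintype.equivOfCardEq hc
  have h4 : (P.submatrix id e) * (Q.submatrix e id) = 1 := by
    rw [submatrix_mul_equiv P Q id e id, h1]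
    simp
  have h5 := congrArg Matrix.det h4
  rw [det_mul, det_one] at h5
  refine ⟨(P.submatrix id e).det, IsUnit.of_mul_eq_one _ h5, ?_⟩
  have h6 : N.submatrix e e = (P.submatrix id e)ᵀ * M * (P.submatrix id e) := by
    rw [← h3]
    ext i j
    simp [Matrix.mul_apply, Matrix.submatrix_apply]
  rw [← det_submatrix_equiv_self e N, h6, det_mul, det_mul, det_transpose]
  ring

/-- the quadratic form -/
def qf (M : Matrix ι ι R) (x : ι → R) : R := x ⬝ᵥ M *ᵥ x

/-- the `1 × 1` matrix -/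
def cc (a : R) : Matrix Unit Unit R := Matrix.of fun _ _ => a

theorem cc_det (a : R) : (cc a).det = a := by
  rw [det_unique]
  rfl

theorem cc_one : cc (1 : R) = 1 := by
  ext i j
  simp [cc]

/-- the equivalence -/
def eqk (k : ι) : Unit ⊕ {j // j ≠ k} ≃ ι where
  toFun := Sum.elim (fun _ => k) (fun j => j.1)
  invFun := fun j => if h : j = k then Sum.inl () else Sum.inr ⟨j, h⟩
  left_inv := by
    rintro (⟨⟩ | ⟨j, hj⟩)
    · simp
    · simp [hj]
  right_inv := by
    intro j
    by_cases h : j = k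
    · simp [h]
    · simp [h]

omit [Fintype κ] [DecidableEq ι] [DecidableEq κ] in
theorem ent (M : Matrix ι ι R) (P : Matrix ι κ R) (i j : κ) :
    (Pᵀ * M * P) i j = (fun l => P l i) ⬝ᵥ M *ᵥ (fun l => P l j) := by
  rw [Matrix.mul_assoc]
  rfl

/-- a vector with a unit coordinate can be split off -/
theorem split_coord (M : Matrix ι ι R) (hs : M.IsSymm) (x : ι → R) (hx : IsUnit (qf M x)) (k : ι)
    (hk : IsUnit (x k)) :
    ∃ M' : Matrix {j // j ≠ k} {j // j ≠ k} R, M'.IsSymm ∧
      Cg M (fromBlocks (cc (qf M x)) 0 0 M') := by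
  set P : Matrix ι ι R := (1 : Matrix ι ι R).updateCol k x with hP
  have hPdet : P.det = x k := by
    have := Matrix.cramer_apply (1 : Matrix ι ι R) x k
    rw [Matrix.cramer_one] at this
    exact this.symm
  have hPu : IsUnit P.det := by rw [hPdet]; exact hk
  set M1 : Matrix ι ι R := Pᵀ * M * P with hM1
  have c1 : Cg M M1 := Cg.of_unit M P hPu
  have hs1 : M1.IsSymm := c1.isSymm hs
  have hPk : (fun l => P l k) = x := by
    funext i
    rw [hP]
    simp
  have hM1k : M1 k k = qf M x := by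
    rw [hM1, ent, hPk]
    rfl
  obtain ⟨b, hb⟩ := hx.exists_right_inv
  set r : ι → R := fun j => if j = k then 1 else -(b * M1 k j) with hr
  set Q : Matrix ι ι R := (1 : Matrix ι ι R).updateRow k r with hQ
  have hQdet : Q.det = 1 := by
    have h1 := Matrix.cramer_apply (1 : Matrix ι ι R) r k
    rw [Matrix.cramer_one] at h1
    have h2 : Qᵀ = (1 : Matrix ι ι R).updateCol k r := by
      rw [hQ, ← updateCol_transpose, transpose_one]
    rw [← det_transpose, h2, ← h1]
    simp [hr]
  have hQu : IsUnit Q.det := by rw [hQdet]; exact isUnit_one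
  set M2 : Matrix ι ι R := Qᵀ * M1 * Q with hM2
  have c2 : Cg M1 M2 := Cg.of_unit M1 Q hQu
  have hs2 : M2.IsSymm := c2.isSymm hs1
  have hQk : (fun l => Q l k) = Pi.single k 1 := by
    funext l
    rw [hQ]
    by_cases h : l = k
    · subst h
      simp [hr]
    · rw [updateRow_ne h, Pi.single_eq_of_ne h, Matrix.one_apply_ne h]
  have hQj : ∀ j, j ≠ k → (fun l => Q l j) = Pi.single j 1 + Pi.single k (r j) := by
    intro j hj
    funext l
    rw [hQ]
    by_cases h : l = k
    · subst h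
      rw [updateRow_self, Pi.add_apply, Pi.single_eq_same, Pi.single_eq_of_ne hj.symm, zero_add]
    · rw [updateRow_ne h, Pi.add_apply, Pi.single_eq_of_ne h, add_zero, Matrix.one_apply,
        Pi.single_apply]
  have e1 : M2 k k = qf M x := by
    rw [hM2, ent, hQk, ← hM1k]
    simp
  have e2 : ∀ j, j ≠ k → M2 k j = 0 := by
    intro j hj
    rw [hM2, ent, hQk, hQj j hj, mulVec_add, dotProduct_add]
    simp only [single_one_dotProduct, mulVec_single, Pi.smul_apply, Matrix.col_apply]
    simp only [hr, if_neg hj, hM1k]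
    simp
    linear_combination (-(M1 k j)) * hb
  have e3 : ∀ j, j ≠ k → M2 j k = 0 := by
    intro j hj
    rw [hs2.apply]
    exact e2 j hj
  refine ⟨M2.submatrix (fun j => j.1) (fun j => j.1), ?_, ?_⟩
  · unfold Matrix.IsSymm
    rw [transpose_submatrix, hs2.eq]
  · have h3 : M2.submatrix (eqk k) (eqk k) = fromBlocks (cc (qf M x)) 0 0
        (M2.submatrix (fun j : {j // j ≠ k} => j.1) (fun j => j.1)) := by
      ext i j
      rcases i with ⟨⟩ | ⟨i, hi⟩ <;> rcases j with ⟨⟩ | ⟨j, hj⟩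
      · exact e1
      · exact e2 j hj
      · exact e3 i hi
      · rfl
    rw [← h3]
    exact (c1.trans c2).trans (Cg.reindex M2 (eqk k))

omit [DecidableEq ι] in
theorem qf_map {S : Type} [CommRing S] (f : R →+* S) (M : Matrix ι ι R) (x : ι → R) :
    f (qf M x) = qf (M.map f) (fun i => f (x i)) := by
  unfold qf
  simp [dotProduct, mulVec]

theorem split [IsLocalRing R] (M : Matrix ι ι R) (hs : M.IsSymm) (x : ι → R)
    (hx : IsUnit (qf M x)) : ∃ k : ι, ∃ M' : Matrix {j // j ≠ k} {j // j ≠ k} R, M'.IsSymm ∧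
      Cg M (fromBlocks (cc (qf M x)) 0 0 M') := by
  by_cases h : ∃ k, IsUnit (x k)
  · obtain ⟨k, hk⟩ := h
    exact ⟨k, split_coord M hs x hx k hk⟩
  · exfalso
    push Not at h
    have h1 : ∀ i, IsLocalRing.residue R (x i) = 0 := fun i => by
      by_contra hne
      exact h i ((IsLocalRing.residue_ne_zero_iff_isUnit _).1 hne)
    have h2 := (IsLocalRing.residue_ne_zero_iff_isUnit _).2 hx
    apply h2
    rw [qf_map]
    simp_rw [h1]
    unfold qf
    simp [dotProduct]

theorem qf_single (M : Matrix ι ι R) (i : ι) : qf M (Pi.single i 1) = M i i := by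
  unfold qf
  simp

theorem qf_two (M : Matrix ι ι R) (hs : M.IsSymm) (i j : ι) :
    qf M (Pi.single i 1 + Pi.single j 1) = M i i + M j j + 2 * M i j := by
  unfold qf
  rw [mulVec_add, dotProduct_add, add_dotProduct, add_dotProduct]
  simp only [mulVec_single_one, single_one_dotProduct, Matrix.col_apply]
  rw [hs.apply i j]
  ring

/-- a unimodular form represents a unit -/
theorem exists_unit [IsLocalRing R] (h2 : IsUnit (2 : R)) [Nonempty ι] (M : Matrix ι ι R)
    (hs : M.IsSymm) (hd : IsUnit M.det) : ∃ x, IsUnit (qf M x) := by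
  by_contra hcon
  push Not at hcon
  have h1 : ∀ i, IsLocalRing.residue R (M i i) = 0 := fun i => by
    by_contra hne
    have := (IsLocalRing.residue_ne_zero_iff_isUnit _).1 hne
    rw [← qf_single M i] at this
    exact hcon _ this
  have h3 : ∀ i j, IsLocalRing.residue R (M i j) = 0 := fun i j => by
    by_contra hne
    apply hcon (Pi.single i 1 + Pi.single j 1)
    rw [qf_two M hs]
    apply (IsLocalRing.residue_ne_zero_iff_isUnit _).1
    rw [map_add, map_add, h1, h1, map_mul, zero_add, zero_add]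
    exact mul_ne_zero ((IsLocalRing.residue_ne_zero_iff_isUnit _).2 h2) hne
  have h4 := (IsLocalRing.residue_ne_zero_iff_isUnit _).2 hd
  apply h4
  rw [RingHom.map_det]
  have h5 : (IsLocalRing.residue R).mapMatrix M = 0 := by
    ext i j
    simp [h3]
  rw [h5, Matrix.det_zero]

/-- a unimodular form of rank at least two splits off `1` -/
theorem split_one [IsLocalRing R] (h2 : IsUnit (2 : R))
    (hsol : ∀ a b : R, IsUnit a → IsUnit b → ∃ s t, a * s ^ 2 + b * t ^ 2 = 1) (n : ℕ)
    (M : Matrix ι ι R) (hc : Fintype.card ι = n + 2) (hs : M.IsSymm) (hd : IsUnit M.det) :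
    ∃ (μ : Type) (_ : Fintype μ) (_ : DecidableEq μ) (M' : Matrix μ μ R), Fintype.card μ = n + 1 ∧
      M'.IsSymm ∧ Cg M (fromBlocks (1 : Matrix Unit Unit R) 0 0 M') := by
  have hne : Nonempty ι := Fintype.card_pos_iff.1 (by omega)
  obtain ⟨x, hx⟩ := exists_unit h2 M hs hd
  obtain ⟨k, M1, hs1, c1⟩ := split M hs x hx
  have hck : Fintype.card {j // j ≠ k} = n + 1 := by
    rw [Fintype.card_subtype_compl, Fintype.card_subtype_eq, hc]
    omega
  set a := qf M x with ha
  set N1 : Matrix (Unit ⊕ {j // j ≠ k}) (Unit ⊕ {j // j ≠ k}) R :=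
    fromBlocks (cc a) 0 0 M1 with hN1
  have hcN : Fintype.card ι = Fintype.card (Unit ⊕ {j // j ≠ k}) := by
    rw [Fintype.card_sum, hck, hc, Fintype.card_unit]
    omega
  obtain ⟨u, hu, hdet⟩ := c1.det hcN
  have hdN : N1.det = a * M1.det := by
    rw [hN1, det_fromBlocks_zero₂₁, cc_det]
  have hd1 : IsUnit M1.det := by
    have : IsUnit (a * M1.det) := by
      rw [← hdN, hdet]
      exact (hu.pow 2).mul hd
    exact isUnit_of_mul_isUnit_right this
  have hne1 : Nonempty {j // j ≠ k} := Fintype.card_pos_iff.1 (by omega)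
  obtain ⟨y, hy⟩ := exists_unit h2 M1 hs1 hd1
  obtain ⟨s, t, hst⟩ := hsol a (qf M1 y) hx hy
  set z : Unit ⊕ {j // j ≠ k} → R := Sum.elim (fun _ => s) (t • y) with hz
  have hqz : qf N1 z = 1 := by
    rw [← hst, hN1, hz]
    unfold qf
    rw [fromBlocks_mulVec, sumElim_dotProduct_sumElim]
    simp only [Matrix.zero_mulVec, zero_add, mulVec_smul, dotProduct_smul,
      smul_dotProduct, Sum.elim_comp_inl, Sum.elim_comp_inr]
    simp [dotProduct, mulVec, cc]
    ring
  have hsN : N1.IsSymm := c1.isSymm hs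
  obtain ⟨k2, M2, hs2, c2⟩ := split N1 hsN z (by rw [hqz]; exact isUnit_one)
  refine ⟨{j // j ≠ k2}, inferInstance, inferInstance, M2, ?_, hs2, ?_⟩
  · rw [Fintype.card_subtype_compl, Fintype.card_subtype_eq, ← hcN, hc]
    omega
  · rw [hqz, cc_one] at c2
    exact c1.trans c2

/-- **Classification** of unimodular symmetric forms over a local ring in which `2` is a unit and
in which all binary unimodular forms represent `1`. -/
theorem classify [IsLocalRing R] (h2 : IsUnit (2 : R))
    (hsol : ∀ a b : R, IsUnit a → IsUnit b → ∃ s t, a * s ^ 2 + b * t ^ 2 = 1) (n : ℕ) :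
    ∀ (ι κ : Type) [Fintype ι] [Fintype κ] [DecidableEq ι] [DecidableEq κ] (M : Matrix ι ι R)
      (N : Matrix κ κ R) (u : R), Fintype.card ι = n → Fintype.card κ = n → M.IsSymm → N.IsSymm →
      IsUnit M.det → IsUnit u → N.det = u ^ 2 * M.det → Cg M N := by
  induction n with
  | zero =>
    intro ι κ _ _ _ _ M N u h1 h3 _ _ _ _ _
    have e1 : IsEmpty ι := Fintype.card_eq_zero_iff.1 h1
    have e2 : IsEmpty κ := Fintype.card_eq_zero_iff.1 h3
    exact ⟨0, 0, Subsingleton.elim _ _, Subsingleton.elim _ _, Subsingleton.elim _ _⟩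
  | succ n ih =>
    intro ι κ _ _ _ _ M N u h1 h3 hs hs' hd hu hdet
    rcases n with _ | n
    · obtain ⟨i, hi⟩ := Fintype.card_eq_one_iff.1 h1
      obtain ⟨k, hk⟩ := Fintype.card_eq_one_iff.1 h3
      obtain ⟨v, hv⟩ := hu.exists_right_inv
      let _ : Unique ι := ⟨⟨i⟩, hi⟩
      let _ : Unique κ := ⟨⟨k⟩, hk⟩
      rw [det_unique, det_unique] at hdet
      refine ⟨Matrix.of fun _ _ => u, Matrix.of fun _ _ => v, ?_, ?_, ?_⟩
      · ext a b
        rw [Matrix.mul_apply, Fintype.sum_unique, Subsingleton.elim a b, of_apply, of_apply, hv,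
          Matrix.one_apply_eq]
      · ext a b
        rw [Matrix.mul_apply, Fintype.sum_unique, Subsingleton.elim a b, of_apply, of_apply,
          mul_comm, hv, Matrix.one_apply_eq]
      · ext a b
        rw [Matrix.mul_apply, Fintype.sum_unique, Matrix.mul_apply, Fintype.sum_unique,
          transpose_apply, Subsingleton.elim a default, Subsingleton.elim b default, hdet]
        simp only [of_apply]
        ring
    · obtain ⟨μ, _, _, M', hc1, hs1, c1⟩ := split_one h2 hsol n M h1 hs hd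
      have hd' : IsUnit N.det := by rw [hdet]; exact (hu.pow 2).mul hd
      obtain ⟨ν, _, _, N', hc2, hs2, c2⟩ := split_one h2 hsol n N h3 hs' hd'
      obtain ⟨w1, hw1, e1⟩ := c1.det (by rw [Fintype.card_sum, hc1, h1, Fintype.card_unit]; omega)
      obtain ⟨w2, hw2, e2⟩ := c2.det (by rw [Fintype.card_sum, hc2, h3, Fintype.card_unit]; omega)
      rw [det_fromBlocks_zero₂₁, det_one, one_mul] at e1 e2
      obtain ⟨w3, hw3⟩ := hw1.exists_right_inv
      have c3 : Cg M' N' := by
        refine ih μ ν M' N' (w2 * u * w3) hc1 hc2 hs1 hs2 ?_ ?_ ?_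
        · rw [e1]; exact (hw1.pow 2).mul hd
        · exact (hw2.mul hu).mul (IsUnit.of_mul_eq_one w1 (by rw [mul_comm]; exact hw3))
        · rw [e1, e2, hdet]
          linear_combination (-(w2 ^ 2 * u ^ 2 * M.det) * (w1 * w3 + 1)) * hw3
      exact (c1.trans c3.sum).trans c2.symm

end

end Pool.Agent.Q296.RL
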