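import Mathlib
import Pool.Agent.Q248.RL.Stm2
import Pool.Agent.Y813.RL.Bf
import Pool.Agent.Q296.RL.Cg

set_option autoImplicit false

/-!
Unimodular forms over `ℤ_p`, `p` odd.
-/

namespace Pool.Agent.Q296.RL

open Matrix Polynomial
open Pool.Agent.Y813.RL (bf)
open Pool.Agent.Q248.RL (IsoOver S_Odd)

section

variable {R : Type} [CommRing R] {ι κ : Type} [Fintype ι] [Fintype κ] [DecidableEq ι]
  [DecidableEq κ]

omit [DecidableEq ι] in
theorem bf_eq (B : Matrix ι ι ℤ) (x y : ι → R) :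
    bf B x y = x ⬝ᵥ (B.map (Int.castRingHom R)) *ᵥ y := by
  unfold bf
  simp only [dotProduct, mulVec, Matrix.map_apply, Finset.mul_sum, mul_assoc]
  rfl

theorem iso_of_cg (B : Matrix ι ι ℤ) (C : Matrix κ κ ℤ)
    (h : Cg (B.map (Int.castRingHom R)) (C.map (Int.castRingHom R))) : IsoOver R B C := by
  obtain ⟨P, Q, h1, h2, h3⟩ := h.symm
  refine ⟨Matrix.toLin'OfInv h2 h1, fun x y => ?_⟩
  have hP : ∀ x, Matrix.toLin'OfInv h2 h1 x = P *ᵥ x := fun x => Matrix.toLin'_apply P x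
  rw [bf_eq, bf_eq, ← h3, hP, hP, ← mulVec_mulVec, ← mulVec_mulVec, dotProduct_mulVec x,
    vecMul_transpose]

end

section

variable (p : ℕ) [hp : Fact p.Prime]

theorem two_unit (hp2 : p ≠ 2) : IsUnit (2 : ℤ_[p]) := by
  have h1 : ‖((2 : ℤ) : ℤ_[p])‖ = 1 := by
    rw [PadicInt.norm_intCast_eq_one_iff]
    have h2 : Nat.Coprime 2 p := (Nat.coprime_primes Nat.prime_two hp.out).2 hp2.symm
    exact_mod_cast Nat.isCoprime_iff_coprime.2 h2
  have h3 := PadicInt.isUnit_iff.2 h1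
  simpa using h3

theorem padic_sqrt (hp2 : p ≠ 2) (c a : ℤ_[p]) (ha : IsUnit a)
    (hc : a ^ 2 - c ∈ IsLocalRing.maximalIdeal ℤ_[p]) : ∃ z : ℤ_[p], z ^ 2 = c := by
  have h1 := HenselianRing.is_henselian (I := IsLocalRing.maximalIdeal ℤ_[p]) (X ^ 2 - C c)
    (monic_X_pow_sub_C c two_ne_zero) a (by simpa using hc) (by
      have : (derivative (X ^ 2 - C c)).eval a = 2 * a := by
        simp only [derivative_sub, derivative_X_pow, derivative_C, sub_zero, eval_mul, eval_C,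
          eval_pow, eval_X]
        norm_num
      rw [this]
      exact ((two_unit p hp2).mul ha).map _)
  obtain ⟨z, hz, -⟩ := h1
  refine ⟨z, ?_⟩
  rw [IsRoot.def] at hz
  simp only [eval_sub, eval_pow, eval_X, eval_C] at hz
  exact sub_eq_zero.1 hz

theorem unit_of_toZMod {x : ℤ_[p]} (h : PadicInt.toZMod x ≠ 0) : IsUnit x := by
  by_contra hcon
  apply h
  have h1 : x ∈ IsLocalRing.maximalIdeal ℤ_[p] := by
    rw [IsLocalRing.mem_maximalIdeal]
    exact hcon
  rw [← PadicInt.ker_toZMod, RingHom.mem_ker] at h1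
  exact h1

theorem lift_sol (hp2 : p ≠ 2) (a s r : ℤ_[p]) (ha : IsUnit a) (hs : PadicInt.toZMod s ≠ 0)
    (h : PadicInt.toZMod (a * s ^ 2 + r - 1) = 0) : ∃ z : ℤ_[p], a * z ^ 2 + r = 1 := by
  obtain ⟨b, hb⟩ := ha.exists_right_inv
  have h1 : s ^ 2 - b * (1 - r) ∈ IsLocalRing.maximalIdeal ℤ_[p] := by
    rw [← PadicInt.ker_toZMod, RingHom.mem_ker]
    have h2 : s ^ 2 - b * (1 - r) = b * (a * s ^ 2 + r - 1) := by
      linear_combination (-s ^ 2) * hb
    rw [h2, map_mul, h, mul_zero]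
  obtain ⟨z, hz⟩ := padic_sqrt p hp2 _ s (unit_of_toZMod p hs) h1
  refine ⟨z, ?_⟩
  rw [hz]
  linear_combination (1 - r) * hb

theorem solve (hp2 : p ≠ 2) (a b : ℤ_[p]) (ha : IsUnit a) (hb : IsUnit b) :
    ∃ s t : ℤ_[p], a * s ^ 2 + b * t ^ 2 = 1 := by
  have ha0 : PadicInt.toZMod a ≠ 0 := (ha.map PadicInt.toZMod).ne_zero
  have hb0 : PadicInt.toZMod b ≠ 0 := (hb.map PadicInt.toZMod).ne_zero
  obtain ⟨s0, t0, hst⟩ := FiniteField.exists_root_sum_quadratic (R := ZMod p)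
    (f := C (PadicInt.toZMod a) * X ^ 2) (g := C (PadicInt.toZMod b) * X ^ 2 - C 1)
    (by rw [degree_C_mul_X_pow 2 ha0]; rfl)
    (by
      rw [degree_sub_eq_left_of_degree_lt]
      · rw [degree_C_mul_X_pow 2 hb0]; rfl
      · rw [degree_C_mul_X_pow 2 hb0, degree_C one_ne_zero]
        norm_num)
    (by
      rw [ZMod.card]
      exact Nat.odd_iff.1 (hp.out.odd_of_ne_two hp2))
  obtain ⟨s, hs⟩ := ZMod.ringHom_surjective (PadicInt.toZMod (p := p)) s0
  obtain ⟨t, ht⟩ := ZMod.ringHom_surjective (PadicInt.toZMod (p := p)) t0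
  simp only [eval_mul, eval_C, eval_pow, eval_X, eval_sub] at hst
  rw [← hs, ← ht] at hst
  by_cases h0 : PadicInt.toZMod s = 0
  · have h1 : PadicInt.toZMod t ≠ 0 := by
      intro h1
      rw [h0, h1] at hst
      simp at hst
    obtain ⟨z, hz⟩ := lift_sol p hp2 b t (a * s ^ 2) hb h1 (by
      simp only [map_add, map_sub, map_mul, map_pow, map_one]
      linear_combination hst)
    exact ⟨s, z, by linear_combination hz⟩
  · obtain ⟨z, hz⟩ := lift_sol p hp2 a s (b * t ^ 2) ha h0 (by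
      simp only [map_add, map_sub, map_mul, map_pow, map_one]
      linear_combination hst)
    exact ⟨z, t, hz⟩

end

theorem det_cast {R : Type} [CommRing R] {ι : Type} [Fintype ι] [DecidableEq ι] (B : Matrix ι ι ℤ) :
    (B.map (Int.castRingHom R)).det = ((B.det : ℤ) : R) := by
  have := (Int.castRingHom R).map_det B
  rw [RingHom.mapMatrix_apply] at this
  rw [← this]
  rfl

theorem odd : S_Odd := by
  intro p _ hp2 ι κ _ _ _ _ B C hc hB hC hdet hdvd
  apply iso_of_cg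
  have hu : IsUnit ((B.det : ℤ) : ℤ_[p]) := by
    rw [PadicInt.isUnit_iff]
    refine le_antisymm (PadicInt.norm_le_one _) (not_lt.1 fun h => hdvd ?_)
    exact (PadicInt.norm_int_lt_one_iff_dvd _).1 h
  refine classify (two_unit p hp2) (solve p hp2) (Fintype.card ι) ι κ _ _ 1 rfl hc.symm ?_ ?_ ?_
    isUnit_one ?_
  · exact hB.map _
  · exact hC.map _
  · rw [det_cast]; exact hu
  · rw [det_cast, det_cast, hdet]; ring

end Pool.Agent.Q296.RL
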